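import Pool.Agent.Helper50.CT.Goals

/-!
# MP_ccd65d_gt, project CT, packet SHRINK
-/

set_option autoImplicit false

open scoped Classical

namespace Pool.Agent.Helper36.CT

open Pool.Agent.Helper50.CT

theorem goalSHRINK (hCX : StmtCX) : StmtSHRINK := by
  intro κ hκ X _ hG hC x a ρ τ S2 hρ hρa hκa hτ hS hSep
  have ha : 0 < a := hρ.trans_le hρa
  set l := ρ / a with hl
  have hl0 : 0 < l := div_pos hρ ha
  have hl1 : l ≤ 1 := (div_le_one ha).2 hρa
  have hex : ∀ z : X, ∃ z' : X, dist x z' = l * dist x z ∧ dist z' z = (1 - l) * dist x z := by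
    intro z
    obtain ⟨c, hc0, hc1, hc⟩ := hG x z
    have hd : 0 ≤ dist x z := dist_nonneg
    have hm : l * dist x z ∈ Set.Icc 0 (dist x z) :=
      ⟨mul_nonneg hl0.le hd, mul_le_of_le_one_left hd hl1⟩
    refine ⟨c (l * dist x z), ?_, ?_⟩
    · have h1 := hc 0 ⟨le_rfl, hd⟩ (l * dist x z) hm
      rw [hc0] at h1
      rw [h1, zero_sub, abs_neg, abs_of_nonneg hm.1]
    · have h1 := hc (l * dist x z) hm (dist x z) ⟨hd, le_rfl⟩
      rw [hc1] at h1
      rw [h1, abs_of_nonpos (by linarith [hm.2])]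
      ring
  choose f hf1 hf2 using hex
  have hκz : ∀ z ∈ S2, κ * dist x z ≤ 11 / 10 := by
    intro z hz
    have h1 := hS z hz
    rw [dist_comm] at h1
    have h2 : κ * dist x z ≤ κ * a := mul_le_mul_of_nonneg_left h1 hκ.le
    linarith
  have key : ∀ z ∈ S2, ∀ w ∈ S2, z ≠ w → ρ / (2 * a) * τ ≤ dist (f z) (f w) := by
    intro z hz w hw hzw
    have h1 := hCX κ hκ X hC x z w (f z) (f w) l hl0 hl1 (hκz z hz) (hκz w hw)
      (hf1 z) (hf2 z) (hf1 w) (hf2 w)
    have h2 := hSep z hz w hw hzw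
    have h3 : l / 2 * τ ≤ l / 2 * dist z w := mul_le_mul_of_nonneg_left h2 (by positivity)
    have h4 : ρ / (2 * a) * τ = l / 2 * τ := by
      rw [hl]
      field_simp
    rw [h4]
    exact h3.trans h1
  have hinj : Set.InjOn f S2 := by
    intro z hz w hw hzw
    by_contra hne
    have h1 := key z hz w hw hne
    rw [hzw, dist_self] at h1
    have h2 : 0 < ρ / (2 * a) * τ := by positivity
    linarith
  refine ⟨S2.image f, ?_, ?_, Finset.card_image_of_injOn hinj⟩
  · intro u hu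
    obtain ⟨z, hz, rfl⟩ := Finset.mem_image.1 hu
    have h1 := hS z hz
    rw [dist_comm] at h1 ⊢
    rw [hf1]
    calc l * dist x z ≤ l * a := mul_le_mul_of_nonneg_left h1 hl0.le
      _ = ρ := by rw [hl]; field_simp
  · intro u hu v hv huv
    obtain ⟨z, hz, rfl⟩ := Finset.mem_image.1 hu
    obtain ⟨w, hw, rfl⟩ := Finset.mem_image.1 hv
    exact key z hz w hw (fun h => huv (by rw [h]))

end Pool.Agent.Helper36.CT
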